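import Mathlib

set_option autoImplicit false

open MvPolynomial

namespace Run7.h874.WA

variable {F : Type} [Field F]

abbrev DD (F : Type) [Field F] := Derivation F (MvPolynomial ℕ F) (MvPolynomial ℕ F)

/-- `d` moves only finitely many variables. -/
def fs (d : DD F) : Prop := Set.Finite {i : ℕ | d (MvPolynomial.X i) ≠ 0}

lemma fs_zero : fs (0 : DD F) := by
  unfold fs
  simp

lemma fs_pd (j : ℕ) : fs (pderiv j : DD F) := by
  unfold fs
  refine (Set.finite_singleton j).subset ?_
  intro i hi
  by_contra h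
  exact hi (pderiv_X_of_ne (fun e => h (by simp [e])))

lemma fs_smul (f : MvPolynomial ℕ F) {d : DD F} (hd : fs d) : fs (f • d) := by
  unfold fs at *
  refine hd.subset ?_
  intro i hi h
  apply hi
  simp only [Derivation.smul_apply, h, smul_zero]

lemma fs_csmul (c : F) {d : DD F} (hd : fs d) : fs (c • d) := by
  unfold fs at *
  refine hd.subset ?_
  intro i hi h
  apply hi
  simp only [Derivation.smul_apply, h, smul_zero]

lemma fs_add {d e : DD F} (hd : fs d) (he : fs e) : fs (d + e) := by
  unfold fs at *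
  refine (hd.union he).subset ?_
  intro i hi
  by_contra h
  simp only [Set.mem_union, Set.mem_ofPred_eq, not_or, not_not] at h
  exact hi (by simp [h.1, h.2])

lemma neg_eq (d : DD F) : -d = (-1 : F) • d := by
  apply Derivation.ext
  intro g
  simp

lemma fs_neg {d : DD F} (hd : fs d) : fs (-d) := by
  rw [neg_eq]
  exact fs_csmul (-1 : F) hd

lemma fs_sub {d e : DD F} (hd : fs d) (he : fs e) : fs (d - e) := by
  rw [sub_eq_add_neg]
  exact fs_add hd (fs_neg he)

lemma fs_lie {d e : DD F} (hd : fs d) (he : fs e) : fs ⁅d, e⁆ := by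
  unfold fs at *
  refine (hd.union he).subset ?_
  intro i hi
  by_contra h
  simp only [Set.mem_union, Set.mem_ofPred_eq, not_or, not_not] at h
  exact hi (by rw [Derivation.commutator_apply, h.1, h.2]; simp)

lemma fs_sum (s : Finset ℕ) (g : ℕ → DD F) (hg : ∀ i ∈ s, fs (g i)) :
    fs (∑ i ∈ s, g i) := by
  classical
  induction s using Finset.induction_on with
  | empty => simpa using fs_zero
  | insert a s ha ih =>
    rw [Finset.sum_insert ha]
    exact fs_add (hg a (Finset.mem_insert_self a s))
      (ih (fun i hi => hg i (Finset.mem_insert_of_mem hi)))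

lemma pd_comm (i j : ℕ) : ⁅(pderiv i : DD F), (pderiv j : DD F)⁆ = 0 := by
  classical
  apply derivation_ext
  intro k
  rw [Derivation.commutator_apply]
  simp only [pderiv_X, Pi.single_apply, Derivation.coe_zero, Pi.zero_apply]
  split_ifs <;> simp

/-- a derivation with finite support is the sum of its coordinates -/
lemma eq_sum (b : DD F) (s : Finset ℕ) (hs : ∀ i ∉ s, b (X i) = 0) :
    b = ∑ i ∈ s, b (X i) • (pderiv i : DD F) := by
  classical
  apply derivation_ext
  intro k
  rw [← Derivation.coeFnAddMonoidHom_apply (∑ i ∈ s, b (X i) • (pderiv i : DD F)), map_sum,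
    Finset.sum_apply]
  simp only [Derivation.coeFnAddMonoidHom_apply, Derivation.smul_apply, pderiv_X,
    Pi.single_apply, smul_eq_mul, mul_ite, mul_one, mul_zero]
  rw [Finset.sum_ite_eq s k]
  split_ifs with h
  · rfl
  · exact hs k h

lemma sum_app (s : Finset ℕ) (g : ℕ → DD F) (f : MvPolynomial ℕ F) :
    (∑ i ∈ s, g i) f = ∑ i ∈ s, g i f := by
  rw [← Derivation.coeFnAddMonoidHom_apply, map_sum, Finset.sum_apply]
  rfl

section pol
variable [CharZero F]

/-- all words of length `n` in the partial derivatives kill `p` -/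
def kp : ℕ → MvPolynomial ℕ F → Prop
  | 0, p => p = 0
  | n + 1, p => ∀ j, kp n (pderiv j p)

omit [CharZero F] in
lemma kp_of (n : ℕ) : ∀ p : MvPolynomial ℕ F, (∀ m ∈ p.support, m.degree < n) → kp n p := by
  induction n with
  | zero =>
    intro p hp
    change p = 0
    rw [← MvPolynomial.support_eq_empty]
    apply Finset.eq_empty_of_forall_notMem
    intro m hm
    exact absurd (hp m hm) (by omega)
  | succ n ih =>
    intro p hp j
    apply ih
    intro m hm
    rw [mem_support_iff, coeff_pderiv] at hm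
    have h1 : coeff (m + Finsupp.single j 1) p ≠ 0 := by
      intro h0
      apply hm
      rw [h0]
      simp
    have h2 := hp _ (mem_support_iff.mpr h1)
    have h3 : (m + Finsupp.single j 1).degree = m.degree + 1 := by
      simp
    omega

omit [CharZero F] in
lemma kp_ex (p : MvPolynomial ℕ F) : ∃ n, kp n p := by
  refine ⟨p.support.sup Finsupp.degree + 1, kp_of _ _ ?_⟩
  intro m hm
  have := Finset.le_sup (f := Finsupp.degree) hm
  omega

omit [CharZero F] in
lemma kp_succ (n : ℕ) : ∀ p : MvPolynomial ℕ F, kp n p → kp (n + 1) p := by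
  induction n with
  | zero =>
    intro p hp j
    change p = 0 at hp
    change pderiv j p = 0
    rw [hp, map_zero]
  | succ n ih =>
    intro p hp j
    exact ih _ (hp j)

omit [CharZero F] in
lemma kp_mono {n m : ℕ} (hnm : n ≤ m) (p : MvPolynomial ℕ F) (h : kp n p) : kp m p := by
  induction hnm with
  | refl => exact h
  | step _ ih => exact kp_succ _ _ ih

/-- a polynomial with zero partial derivatives is constant -/
lemma const_of (p : MvPolynomial ℕ F) (h : ∀ j, pderiv j p = 0) : p = C (coeff 0 p) := by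
  classical
  ext m
  rw [coeff_C]
  split_ifs with hm
  · rw [← hm]
  · have : ∃ j, m j ≠ 0 := by
      by_contra h0
      push Not at h0
      exact hm (Finsupp.ext (fun j => (h0 j).symm))
    obtain ⟨j, hj⟩ := this
    have h1 := congrArg (coeff (m - Finsupp.single j 1)) (h j)
    rw [coeff_pderiv, coeff_zero] at h1
    have h2 : m - Finsupp.single j 1 + Finsupp.single j 1 = m := by
      apply tsub_add_cancel_of_le
      rw [Finsupp.single_le_iff]
      omega
    rw [h2] at h1
    rcases mul_eq_zero.mp h1 with h3 | h3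
    · exact h3
    · exfalso
      exact Nat.cast_add_one_ne_zero (R := F) _ h3

/-- all words of length `n` in the `ad` of partial derivatives kill `b` -/
def kw : ℕ → DD F → Prop
  | 0, b => b = 0
  | n + 1, b => ∀ j, kw n ⁅(pderiv j : DD F), b⁆

omit [CharZero F] in
lemma lie_pd_X (j i : ℕ) (b : DD F) :
    ⁅(pderiv j : DD F), b⁆ (X i) = pderiv j (b (X i)) := by
  classical
  rw [Derivation.commutator_apply]
  have : b (pderiv j (X i)) = 0 := by
    rw [pderiv_X, Pi.single_apply]
    split_ifs <;> simp
  rw [this, sub_zero]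

omit [CharZero F] in
lemma kw_of (n : ℕ) : ∀ b : DD F, (∀ i, kp n (b (X i))) → kw n b := by
  induction n with
  | zero =>
    intro b hb
    change b = 0
    apply derivation_ext
    intro i
    exact hb i
  | succ n ih =>
    intro b hb j
    apply ih
    intro i
    rw [lie_pd_X]
    exact hb i j

omit [CharZero F] in
lemma kw_ex (b : DD F) (hb : fs b) : ∃ n, kw n b := by
  choose n hn using fun i => kp_ex (b (X i))
  refine ⟨hb.toFinset.sup n, kw_of _ _ ?_⟩
  intro i
  by_cases h : b (X i) = 0
  · rw [h]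
    exact kp_mono (Nat.zero_le _) _ rfl
  · exact kp_mono (Finset.le_sup (hb.mem_toFinset.mpr h)) _ (hn i)

end pol

/-- the hypotheses of the frozen statement -/
structure Th (θ : DD F → DD F) : Prop where
  fs : ∀ d, fs d → fs (θ d)
  sur : ∀ e, Run7.h874.WA.fs e → ∃ d, Run7.h874.WA.fs d ∧ θ d = e
  inj : ∀ d e, Run7.h874.WA.fs d → Run7.h874.WA.fs e → θ d = θ e → d = e
  al : ∀ d e, Run7.h874.WA.fs d → Run7.h874.WA.fs e →
    θ (d + e) = θ d + θ e ∧ θ ⁅d, e⁆ = ⁅θ d, θ e⁆
  sm : ∀ (c : F) d, Run7.h874.WA.fs d → θ (c • d) = c • θ d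

section th
variable {θ : DD F → DD F} (h : Th θ)
include h

lemma th0 : θ 0 = 0 := by
  have := h.sm 0 0 fs_zero
  simpa using this

lemma thneg {d : DD F} (hd : fs d) : θ (-d) = - θ d := by
  rw [neg_eq, neg_eq]
  exact h.sm (-1) d hd

lemma thsub {d e : DD F} (hd : fs d) (he : fs e) : θ (d - e) = θ d - θ e := by
  rw [sub_eq_add_neg, (h.al _ _ hd (fs_neg he)).1, thneg h he, ← sub_eq_add_neg]

lemma thlie {d e : DD F} (hd : fs d) (he : fs e) : θ ⁅d, e⁆ = ⁅θ d, θ e⁆ := (h.al _ _ hd he).2

lemma thsum (s : Finset ℕ) (g : ℕ → DD F) (hg : ∀ i ∈ s, fs (g i)) :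
    θ (∑ i ∈ s, g i) = ∑ i ∈ s, θ (g i) := by
  classical
  induction s using Finset.induction_on with
  | empty => simpa using th0 h
  | insert a s ha ih =>
    rw [Finset.sum_insert ha, Finset.sum_insert ha,
      (h.al _ _ (hg a (Finset.mem_insert_self a s))
      (fs_sum _ _ (fun i hi => hg i (Finset.mem_insert_of_mem hi)))).1,
      ih (fun i hi => hg i (Finset.mem_insert_of_mem hi))]

lemma D_comm (i j : ℕ) : ⁅θ (pderiv i), θ (pderiv j)⁆ = 0 := by
  rw [← thlie h (fs_pd i) (fs_pd j), pd_comm, th0 h]

lemma D_ne (i : ℕ) : θ (pderiv i) ≠ 0 := by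
  intro h0
  rw [← th0 h] at h0
  have h1 := h.inj _ _ (fs_pd i) fs_zero h0
  have h2 := congrArg (fun d : DD F => d (X i)) h1
  simp at h2

lemma smul_D {f : MvPolynomial ℕ F} {i : ℕ} (hf : f • θ (pderiv i) = 0) : f = 0 := by
  by_contra hf0
  apply D_ne h i
  apply Derivation.ext
  intro g
  have := congrArg (fun d : DD F => d g) hf
  simp only [Derivation.smul_apply, smul_eq_mul, Derivation.coe_zero, Pi.zero_apply] at this
  rcases mul_eq_zero.mp this with h1 | h1
  · exact absurd h1 hf0
  · exact h1

end th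

end Run7.h874.WA
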