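import Pool.Agent.Run7.h874.WA.A

set_option autoImplicit false

open MvPolynomial

namespace Run7.h874.WA

variable {F : Type} [Field F]

noncomputable abbrev xd {F : Type} [Field F] (k : ℕ) : DD F := (X k : MvPolynomial ℕ F) • (pderiv k : DD F)

lemma lie_XdX (k j : ℕ) : ⁅(xd k : DD F), (pderiv j : DD F)⁆ =
    if k = j then -(pderiv k : DD F) else 0 := by
  classical
  apply derivation_ext
  intro i
  rw [Derivation.commutator_apply]
  split_ifs with hkj
  · subst hkj
    simp only [Derivation.smul_apply, pderiv_X, Pi.single_apply, Derivation.neg_apply,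
      smul_eq_mul, mul_ite, mul_one, mul_zero]
    split_ifs <;> simp
  · simp only [Derivation.smul_apply, pderiv_X, Pi.single_apply, smul_eq_mul, mul_ite, mul_one,
      mul_zero, Derivation.coe_zero, Pi.zero_apply]
    have : j ≠ k := fun e => hkj e.symm
    split_ifs <;> simp [pderiv_X_of_ne, hkj]

section th
variable {θ : DD F → DD F} (h : Th θ)
include h

lemma hk_D (k j : ℕ) : ⁅θ (xd k), θ (pderiv j)⁆ =
    if k = j then - θ (pderiv k) else 0 := by
  rw [← thlie h (fs_smul _ (fs_pd k)) (fs_pd j), lie_XdX]
  split_ifs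
  · rw [thneg h (fs_pd k)]
  · exact th0 h

lemma hk_h (k j : ℕ) : ⁅θ (xd k), θ (xd j)⁆ = 0 := by
  classical
  rw [← thlie h (fs_smul _ (fs_pd k)) (fs_smul _ (fs_pd j)), ← th0 h]
  congr 1
  apply derivation_ext
  intro i
  rw [Derivation.commutator_apply]
  simp only [Derivation.smul_apply, pderiv_X, Pi.single_apply, smul_eq_mul, mul_ite, mul_one,
      mul_zero, Derivation.coe_zero, Pi.zero_apply]
  split_ifs <;> simp_all [pderiv_X, Pi.single_apply]

/-- words in the `D j` killing `f` -/
def kl (θ : DD F → DD F) : ℕ → MvPolynomial ℕ F → Prop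
  | 0, f => f = 0
  | n + 1, f => ∀ j, kl θ n (θ (pderiv j) f)

lemma kl_of (n : ℕ) : ∀ (b : DD F) (f : MvPolynomial ℕ F), fs b → kw n b →
    θ b = f • θ (pderiv 0) → kl θ n f := by
  induction n with
  | zero =>
    intro b f _ hk hb
    change b = 0 at hk
    rw [hk, th0 h] at hb
    exact smul_D h hb.symm
  | succ n ih =>
    intro b f hb hk hbf j
    refine ih ⁅(pderiv j : DD F), b⁆ _ (fs_lie (fs_pd j) hb) (hk j) ?_
    rw [thlie h (fs_pd j) hb, hbf]
    apply Derivation.ext
    intro g
    have h1 := congrArg (fun d : DD F => d g) (D_comm h j 0)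
    simp only [Derivation.commutator_apply, Derivation.coe_zero, Pi.zero_apply] at h1
    rw [Derivation.commutator_apply]
    simp only [Derivation.smul_apply, Derivation.leibniz, smul_eq_mul]
    linear_combination f * h1

lemma kl_ex (f : MvPolynomial ℕ F) : ∃ n, kl θ n f := by
  obtain ⟨b, hb, hbf⟩ := h.sur (f • θ (pderiv 0)) (fs_smul _ (h.fs _ (fs_pd 0)))
  obtain ⟨n, hn⟩ := kw_ex b hb
  exact ⟨n, kl_of h n b f hb hn hbf⟩

/-- the centralizer of all the `D i` -/
lemma cen [CharZero F] (a : DD F) (ha : fs a) (hc : ∀ i, ⁅θ (pderiv i), a⁆ = 0) :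
    ∃ (s : Finset ℕ) (c : ℕ → F), (∀ i ∉ s, c i = 0) ∧ a = ∑ i ∈ s, c i • θ (pderiv i) := by
  obtain ⟨b, hb, hba⟩ := h.sur a ha
  have h1 : ∀ i, ⁅(pderiv i : DD F), b⁆ = 0 := by
    intro i
    apply h.inj _ _ (fs_lie (fs_pd i) hb) fs_zero
    rw [thlie h (fs_pd i) hb, hba, hc, th0 h]
  have h2 : ∀ k, b (X k) = C (coeff 0 (b (X k))) := by
    intro k
    apply const_of
    intro j
    rw [← lie_pd_X, h1 j]
    rfl
  refine ⟨hb.toFinset, fun k => coeff 0 (b (X k)), ?_, ?_⟩
  · intro i hi
    rw [Set.Finite.mem_toFinset] at hi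
    have : b (X i) = 0 := by
      by_contra h0
      exact hi h0
    simp [this]
  · have h3 : b = ∑ i ∈ hb.toFinset, (coeff 0 (b (X i))) • (pderiv i : DD F) := by
      conv_lhs => rw [eq_sum b hb.toFinset (by
        intro i hi
        rw [Set.Finite.mem_toFinset] at hi
        by_contra h0
        exact hi h0)]
      apply Finset.sum_congr rfl
      intro i _
      rw [h2 i]
      apply Derivation.ext
      intro g
      simp [MvPolynomial.smul_eq_C_mul]
    rw [← hba]
    conv_lhs => rw [h3]
    rw [thsum h _ _ (fun i _ => fs_csmul _ (fs_pd i))]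
    apply Finset.sum_congr rfl
    intro i _
    rw [h.sm _ _ (fs_pd i)]

lemma hk_lin (s : Finset ℕ) (c : ℕ → F) (hc : ∀ i ∉ s, c i = 0) (k : ℕ) :
    ⁅θ (xd k), ∑ i ∈ s, c i • θ (pderiv i)⁆ = -(c k • θ (pderiv k)) := by
  classical
  apply Derivation.ext
  intro e
  rw [Derivation.commutator_apply, sum_app, sum_app, map_sum, ← Finset.sum_sub_distrib]
  have : ∀ i ∈ s, θ (xd k) ((c i • θ (pderiv i)) e) - (c i • θ (pderiv i)) (θ (xd k) e) =
      if k = i then -(C (c i) * θ (pderiv i) e) else 0 := by
    intro i _
    have h1 := congrArg (fun d : DD F => d e) (hk_D h k i)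
    simp only [Derivation.commutator_apply] at h1
    simp only [Derivation.smul_apply, MvPolynomial.smul_eq_C_mul, Derivation.leibniz,
      derivation_C, smul_eq_mul]
    split_ifs at h1 ⊢ with hki
    · subst hki
      simp only [Derivation.neg_apply] at h1
      linear_combination C (c k) * h1
    · simp only [Derivation.coe_zero, Pi.zero_apply] at h1
      linear_combination C (c i) * h1
  rw [Finset.sum_congr rfl this, Finset.sum_ite_eq s k]
  simp only [Derivation.neg_apply, Derivation.smul_apply, MvPolynomial.smul_eq_C_mul]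
  split_ifs with hk
  · rfl
  · rw [hc k hk]
    simp

/-- common constants of the `D i` are scalars -/
lemma ker_const [CharZero F] (f : MvPolynomial ℕ F) (hf : ∀ j, θ (pderiv j) f = 0) :
    ∃ c : F, f = C c := by
  have key : ∀ (g : MvPolynomial ℕ F) (j : ℕ), (∀ i, θ (pderiv i) g = 0) →
      ∃ (s : Finset ℕ) (c : ℕ → F), (∀ i ∉ s, c i = 0) ∧
        g • θ (pderiv j) = ∑ i ∈ s, c i • θ (pderiv i) := by
    intro g j hg
    apply cen h _ (fs_smul _ (h.fs _ (fs_pd j)))
    intro i
    apply Derivation.ext
    intro e
    have h1 := congrArg (fun d : DD F => d e) (D_comm h i j)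
    simp only [Derivation.commutator_apply, Derivation.coe_zero, Pi.zero_apply] at h1
    rw [Derivation.commutator_apply]
    simp only [Derivation.smul_apply, Derivation.leibniz, smul_eq_mul, hg i, Derivation.coe_zero,
      Pi.zero_apply]
    linear_combination g * h1
  obtain ⟨s, c, hs, hc⟩ := key f 0 hf
  have hz : ∀ k, k ≠ 0 → c k = 0 := by
    intro k hk
    by_contra hck
    -- g = h_k f
    have e1 : (θ (xd k) f) • θ (pderiv 0) = -(c k • θ (pderiv k)) := by
      rw [← hk_lin h s c hs k, ← hc]
      apply Derivation.ext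
      intro e
      have h1 := congrArg (fun d : DD F => d e) (hk_D h k 0)
      rw [if_neg hk] at h1
      simp only [Derivation.commutator_apply, Derivation.coe_zero, Pi.zero_apply] at h1
      rw [Derivation.commutator_apply]
      simp only [Derivation.smul_apply, Derivation.leibniz, smul_eq_mul]
      linear_combination -f * h1
    have e2 : ∀ i, θ (pderiv i) (θ (xd k) f) = 0 := by
      intro i
      have h1 := congrArg (fun d : DD F => d f) (hk_D h k i)
      simp only [Derivation.commutator_apply, hf i, map_zero, zero_sub] at h1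
      split_ifs at h1 with hki
      · simp only [Derivation.neg_apply, hf k, neg_zero, neg_eq_zero] at h1
        exact h1
      · simp only [Derivation.coe_zero, Pi.zero_apply, neg_eq_zero] at h1
        exact h1
    have e3 : θ (xd k) (θ (xd k) f) + θ (xd k) f = 0 := by
      apply smul_D h (i := 0)
      apply Derivation.ext
      intro e
      have h1 := congrArg (fun d : DD F => d e) (hk_D h k 0)
      rw [if_neg hk] at h1
      simp only [Derivation.commutator_apply, Derivation.coe_zero, Pi.zero_apply] at h1
      have h2 := congrArg (fun d : DD F => θ (xd k) (d e)) e1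
      have h3 := congrArg (fun d : DD F => d (θ (xd k) e)) e1
      have h4 := congrArg (fun d : DD F => d e) e1
      have h5 := congrArg (fun d : DD F => d e) (hk_D h k k)
      rw [if_pos rfl] at h5
      simp only [Derivation.commutator_apply, Derivation.neg_apply] at h5
      simp only [Derivation.smul_apply, Derivation.neg_apply, Derivation.leibniz, smul_eq_mul,
        map_neg, Derivation.map_smul, MvPolynomial.smul_eq_C_mul, derivation_C] at h2 h3 h4 ⊢
      simp only [Derivation.add_apply, Derivation.smul_apply, smul_eq_mul, Derivation.coe_zero,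
        Pi.zero_apply]
      linear_combination h2 - h3 + h4 - (θ (xd k) f) * h1 - C (c k) * h5
    obtain ⟨s', c', hs', hc'⟩ := key (θ (xd k) f) k e2
    have e4 : (2 * θ (xd k) f - C (c' k)) = 0 := by
      apply smul_D h (i := k)
      apply Derivation.ext
      intro e
      have h1 := congrArg (fun d : DD F => d e) (hk_lin h s' c' hs' k)
      rw [← hc'] at h1
      have h5 := congrArg (fun d : DD F => d e) (hk_D h k k)
      rw [if_pos rfl] at h5
      simp only [Derivation.commutator_apply, Derivation.neg_apply] at h5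
      simp only [Derivation.commutator_apply, Derivation.smul_apply, Derivation.neg_apply,
        Derivation.leibniz, smul_eq_mul, MvPolynomial.smul_eq_C_mul] at h1
      simp only [Derivation.smul_apply, smul_eq_mul, Derivation.coe_zero, Pi.zero_apply]
      linear_combination -h1 + (θ (xd k) f) * h5 + (θ (pderiv k) e) * e3
    have e5 : θ (xd k) f = C (c' k / 2) := by
      have h2 : (2 : MvPolynomial ℕ F) = C 2 := (map_ofNat C 2).symm
      have h3 : C (2⁻¹ : F) * (2 : MvPolynomial ℕ F) = 1 := by
        rw [h2, ← C_mul, inv_mul_cancel₀ (two_ne_zero), C_1]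
      rw [div_eq_mul_inv, C_mul]
      linear_combination C (2⁻¹ : F) * e4 - (θ (xd k) f) * h3
    rw [e5, derivation_C, zero_add] at e3
    rw [e5, e3, zero_smul] at e1
    have e6 : (C (c k) : MvPolynomial ℕ F) = 0 := by
      apply smul_D h (i := k)
      apply Derivation.ext
      intro e
      have h4 := congrArg (fun d : DD F => d e) e1
      simp only [Derivation.smul_apply, Derivation.neg_apply, MvPolynomial.smul_eq_C_mul,
        Derivation.coe_zero, Pi.zero_apply] at h4
      simp only [Derivation.smul_apply, smul_eq_mul, Derivation.coe_zero, Pi.zero_apply]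
      linear_combination h4
    exact hck (by simpa using e6)
  refine ⟨c 0, ?_⟩
  have e7 : f - C (c 0) = 0 := by
    apply smul_D h (i := 0)
    have : (∑ i ∈ s, c i • θ (pderiv i)) = c 0 • θ (pderiv 0) := by
      by_cases h0 : 0 ∈ s
      · rw [Finset.sum_eq_single_of_mem 0 h0]
        intro b _ hb
        rw [hz b hb, zero_smul]
      · rw [hs 0 h0, zero_smul]
        apply Finset.sum_eq_zero
        intro b hb
        by_cases hb0 : b = 0
        · exact absurd (hb0 ▸ hb) h0
        · rw [hz b hb0, zero_smul]
    rw [this] at hc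
    apply Derivation.ext
    intro e
    have h4 := congrArg (fun d : DD F => d e) hc
    simp only [Derivation.smul_apply, MvPolynomial.smul_eq_C_mul, smul_eq_mul] at h4
    simp only [Derivation.smul_apply, smul_eq_mul, Derivation.coe_zero, Pi.zero_apply]
    linear_combination h4
  exact sub_eq_zero.mp e7

end th

end Run7.h874.WA
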