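import Pool.Agent.Run7.h874.WA.B

set_option autoImplicit false

open MvPolynomial

namespace Run7.h874.WA

variable {F : Type} [Field F] [CharZero F]

/-- the Lie relation between `D l` and `θ (x j d_i)` -/
lemma lie_pd_mon (l i : ℕ) (p : MvPolynomial ℕ F) :
    ⁅(pderiv l : DD F), (p • pderiv i : DD F)⁆ = (pderiv l p) • (pderiv i : DD F) := by
  apply Derivation.ext
  intro e
  have h1 := congrArg (fun d : DD F => d e) (pd_comm (F := F) l i)
  simp only [Derivation.commutator_apply, Derivation.coe_zero, Pi.zero_apply] at h1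
  rw [Derivation.commutator_apply]
  simp only [Derivation.smul_apply, Derivation.leibniz, smul_eq_mul]
  linear_combination p * h1

section th
variable {θ : DD F → DD F} (h : Th θ)
include h

lemma exists_g : ∀ (n : ℕ) (f : MvPolynomial ℕ F), kl θ n f → (∃ j, θ (pderiv j) f ≠ 0) →
    ∃ g : MvPolynomial ℕ F, (∀ j i, θ (pderiv i) (θ (pderiv j) g) = 0) ∧
      ∃ k, θ (pderiv k) g ≠ 0 := by
  intro n
  induction n with
  | zero =>
    intro f hf ⟨j, hj⟩
    change f = 0 at hf
    rw [hf, map_zero] at hj
    exact absurd rfl hj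
  | succ n ih =>
    intro f hf hj
    by_cases h1 : ∀ j i, θ (pderiv i) (θ (pderiv j) f) = 0
    · exact ⟨f, h1, hj⟩
    · push Not at h1
      obtain ⟨j, i, hji⟩ := h1
      exact ih _ (hf j) ⟨i, hji⟩

lemma exists_y' : ∃ y : ℕ → MvPolynomial ℕ F,
    ∀ l j, θ (pderiv l) (y j) = if l = j then 1 else 0 := by
  obtain ⟨n, hn⟩ := kl_ex h (X 0 : MvPolynomial ℕ F)
  have hX : ∃ j, θ (pderiv j) (X 0 : MvPolynomial ℕ F) ≠ 0 := by
    by_contra h0
    push Not at h0
    obtain ⟨c, hc⟩ := ker_const h _ h0
    have := congrArg (pderiv 0) hc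
    simp at this
  obtain ⟨g, hg, k, hk⟩ := exists_g h n _ hn hX
  choose c hc using fun j => ker_const h (θ (pderiv j) g) (hg j)
  have hck : c k ≠ 0 := by
    intro h0
    rw [hc k, h0, C_0] at hk
    exact hk rfl
  refine ⟨fun j => C (c k)⁻¹ * θ ((X j : MvPolynomial ℕ F) • (pderiv k : DD F)) g, ?_⟩
  intro l j
  have h1 : ⁅θ (pderiv l), θ ((X j : MvPolynomial ℕ F) • (pderiv k : DD F))⁆ =
      if l = j then θ (pderiv k) else 0 := by
    rw [← thlie h (fs_pd l) (fs_smul _ (fs_pd k)), lie_pd_mon]
    split_ifs with hlj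
    · subst hlj
      rw [pderiv_X_self, one_smul]
    · rw [pderiv_X_of_ne (fun e => hlj e.symm), zero_smul, th0 h]
  have h2 := congrArg (fun d : DD F => d g) h1
  simp only [Derivation.commutator_apply] at h2
  rw [hc l, derivation_C, sub_zero] at h2
  rw [Derivation.leibniz, derivation_C, h2, smul_zero, add_zero, smul_eq_mul]
  split_ifs with hlj
  · rw [hc k, ← C_mul, inv_mul_cancel₀ hck, C_1]
  · simp

/-- the slices, normalised by the torus -/
lemma exists_y : ∃ y : ℕ → MvPolynomial ℕ F,
    (∀ l j, θ (pderiv l) (y j) = if l = j then 1 else 0) ∧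
    (∀ j i, θ (xd j) (y i) = if j = i then y i else 0) := by
  classical
  obtain ⟨y, hy⟩ := exists_y' h
  -- h_j - y_j D_j commutes with all D_l
  have h1 : ∀ j, ∃ (s : Finset ℕ) (c : ℕ → F), (∀ i ∉ s, c i = 0) ∧
      θ (xd j) - y j • θ (pderiv j) = ∑ i ∈ s, c i • θ (pderiv i) := by
    intro j
    apply cen h _ (fs_sub (h.fs _ (fs_smul _ (fs_pd j))) (fs_smul _ (h.fs _ (fs_pd j))))
    intro l
    apply Derivation.ext
    intro e
    have h2 := congrArg (fun d : DD F => d e) (hk_D h j l)
    have h3 := congrArg (fun d : DD F => d e) (D_comm h l j)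
    simp only [Derivation.commutator_apply, Derivation.coe_zero, Pi.zero_apply] at h2 h3
    rw [Derivation.commutator_apply]
    simp only [Derivation.smul_apply, Derivation.sub_apply, Derivation.leibniz, smul_eq_mul,
      map_sub, hy, Derivation.coe_zero, Pi.zero_apply]
    by_cases hlj : j = l
    · subst hlj
      rw [if_pos rfl, Derivation.neg_apply] at h2
      rw [if_pos rfl]
      linear_combination -h2 - y j * h3
    · rw [if_neg hlj, Derivation.coe_zero, Pi.zero_apply] at h2
      rw [if_neg (fun e => hlj e.symm)]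
      linear_combination -h2 - y j * h3
  choose s c hs hc using h1
  -- values on y
  have h4 : ∀ j i, θ (xd j) (y i) = (if j = i then y i else 0) + C (c j i) := by
    intro j i
    have h5 := congrArg (fun d : DD F => d (y i)) (hc j)
    simp only [sum_app, Derivation.sub_apply, Derivation.smul_apply, hy, smul_eq_mul] at h5
    have h6 : ∑ x ∈ s j, c j x • (if x = i then (1 : MvPolynomial ℕ F) else 0) = C (c j i) := by
      rw [Finset.sum_eq_single i]
      · rw [if_pos rfl, MvPolynomial.smul_eq_C_mul, mul_one]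
      · intro b _ hb
        rw [if_neg hb, smul_zero]
      · intro hi
        rw [hs j i hi, zero_smul]
    rw [h6] at h5
    split_ifs at h5 ⊢ with hji
    · subst hji
      linear_combination h5
    · linear_combination h5
  have h7 : ∀ i j, i ≠ j → c i j = 0 := by
    intro i j hij
    have h8 := congrArg (fun d : DD F => d (y j)) (hk_h h i j)
    simp only [Derivation.commutator_apply, Derivation.coe_zero, Pi.zero_apply, h4, if_neg hij,
      if_true, map_add, derivation_C, zero_add, add_zero, sub_zero] at h8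
    exact (C_injective ℕ F) (by rw [h8, C_0])
  refine ⟨fun j => y j + C (c j j), ?_, ?_⟩
  · intro l j
    simp only [map_add, derivation_C, add_zero, hy]
  · intro j i
    simp only [map_add, derivation_C, add_zero, h4]
    split_ifs with hji
    · subst hji
      rfl
    · rw [h7 j i hji, C_0, zero_add]

end th

end Run7.h874.WA
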