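import Pool.Agent.Run7.h874.WA.C

set_option autoImplicit false

open MvPolynomial

namespace Run7.h874.WA

variable {F : Type} [Field F] [CharZero F]

omit [CharZero F] in
lemma lie_xd_mon (j i : ℕ) (α : ℕ →₀ ℕ) :
    ⁅(xd j : DD F), ((monomial α (1 : F)) • pderiv i : DD F)⁆ =
      ((α j : F) - (if j = i then 1 else 0)) • ((monomial α (1 : F)) • pderiv i : DD F) := by
  classical
  have h2 := X_mul_pderiv_monomial (R := F) (i := j) (m := α) (r := 1)
  apply derivation_ext
  intro k
  rw [Derivation.commutator_apply]
  simp only [Derivation.smul_apply, Derivation.leibniz, smul_eq_mul, pderiv_X, Pi.single_apply,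
    mul_ite, mul_one, mul_zero]
  rw [nsmul_eq_mul] at h2
  have h3 : ((α j : ℕ) : MvPolynomial ℕ F) = C (α j : F) := (map_natCast C (α j)).symm
  rw [h3] at h2
  by_cases hji : j = i
  · subst hji
    by_cases hk : k = j
    · subst hk
      simp only [if_true, map_sub, sub_smul, one_smul, MvPolynomial.smul_eq_C_mul, pderiv_X,
        Pi.single_apply, mul_one, map_one, mul_zero, map_zero, add_zero]
      linear_combination h2
    · simp [hk]
  · by_cases hk : k = i
    · subst hk
      have hjk : k ≠ j := fun e => hji e.symm
      simp only [if_true, if_neg hji, if_neg hjk, sub_zero, MvPolynomial.smul_eq_C_mul,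
        mul_one, map_one, mul_zero, map_zero, add_zero]
      linear_combination h2
    · by_cases hkj : k = j
      · subst hkj
        simp [hk, pderiv_X, Pi.single_apply]
      · simp [hk, hkj]

section th
variable {θ : DD F → DD F} (h : Th θ) (y : ℕ → MvPolynomial ℕ F)
  (hy : ∀ l j, θ (pderiv l) (y j) = if l = j then 1 else 0)
  (hy2 : ∀ j i, θ (xd j) (y i) = if j = i then y i else 0)

omit [CharZero F] in
include hy in
lemma D_phi (l : ℕ) (p : MvPolynomial ℕ F) :
    θ (pderiv l) (aeval y p) = aeval y (pderiv l p) := by
  classical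
  induction p using MvPolynomial.induction_on with
  | C a => simp
  | add p q hp hq => simp only [map_add, hp, hq]
  | mul_X p n hp =>
    rw [map_mul, Derivation.leibniz, Derivation.leibniz, hp, aeval_X, hy, pderiv_X,
      Pi.single_apply]
    simp only [map_add, smul_eq_mul, map_mul, aeval_X]
    congr 1
    by_cases hln : l = n
    · subst hln; simp
    · rw [if_neg hln, if_neg (fun e : n = l => hln e.symm)]
      simp

omit [CharZero F] in
include hy2 in
lemma h_phi (l : ℕ) (p : MvPolynomial ℕ F) :
    θ (xd l) (aeval y p) = aeval y (X l * pderiv l p) := by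
  classical
  induction p using MvPolynomial.induction_on with
  | C a => simp
  | add p q hp hq => simp only [map_add, hp, hq, mul_add]
  | mul_X p n hp =>
    rw [map_mul, Derivation.leibniz, Derivation.leibniz, hp, aeval_X, hy2, pderiv_X,
      Pi.single_apply]
    simp only [map_add, smul_eq_mul, map_mul, aeval_X]
    by_cases hln : l = n
    · subst hln; simp only [if_true, map_one]; ring
    · simp only [if_neg hln, if_neg (fun e : n = l => hln e.symm), map_zero]; ring

include h hy hy2 in
lemma theta_mon (n : ℕ) : ∀ (α : ℕ →₀ ℕ), α.degree = n → ∀ i,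
    θ ((monomial α (1 : F)) • pderiv i) = (aeval y (monomial α (1 : F))) • θ (pderiv i) := by
  classical
  induction n with
  | zero =>
    intro α hα i
    rw [Finsupp.degree_eq_zero_iff] at hα
    subst hα
    have : (monomial (0 : ℕ →₀ ℕ) (1 : F)) = 1 := rfl
    rw [this, map_one, one_smul, one_smul]
  | succ n ih =>
    intro α hα i
    have hl : ∀ l, θ ((pderiv l (monomial α (1 : F))) • pderiv i) =
        (aeval y (pderiv l (monomial α (1 : F)))) • θ (pderiv i) := by
      intro l
      rw [pderiv_monomial]
      have e1 : (monomial (α - Finsupp.single l 1) ((1 : F) * (α l : F))) =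
          C (α l : F) * monomial (α - Finsupp.single l 1) (1 : F) := by
        rw [C_mul_monomial, one_mul, mul_one]
      rw [e1]
      by_cases h0 : α l = 0
      · rw [h0, Nat.cast_zero, C_0, zero_mul, zero_smul, map_zero, zero_smul, th0 h]
      · have e2 : (α - Finsupp.single l 1).degree = n := by
          have h2 : α - Finsupp.single l 1 + Finsupp.single l 1 = α := by
            apply tsub_add_cancel_of_le
            rw [Finsupp.single_le_iff]
            omega
          have h3 := congrArg Finsupp.degree h2
          rw [map_add, Finsupp.degree_single, hα] at h3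
          omega
        have e3 : ((C (α l : F) * monomial (α - Finsupp.single l 1) (1 : F)) •
            (pderiv i : DD F)) = (α l : F) • ((monomial (α - Finsupp.single l 1) (1 : F)) •
            (pderiv i : DD F)) := by
          rw [← MvPolynomial.smul_eq_C_mul, smul_assoc]
        rw [e3, h.sm _ _ (fs_smul _ (fs_pd i)), ih _ e2, map_mul,
          ← MvPolynomial.algebraMap_eq, AlgHom.commutes, MvPolynomial.algebraMap_eq,
          ← MvPolynomial.smul_eq_C_mul, smul_assoc]
    have hfa : fs (θ ((monomial α (1 : F)) • pderiv i) -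
        (aeval y (monomial α (1 : F))) • θ (pderiv i)) :=
      fs_sub (h.fs _ (fs_smul _ (fs_pd i))) (fs_smul _ (h.fs _ (fs_pd i)))
    obtain ⟨s, c, hs, hc⟩ := cen h _ hfa (by
      intro l
      have h1 := hl l
      rw [← lie_pd_mon, thlie h (fs_pd l) (fs_smul _ (fs_pd i))] at h1
      apply Derivation.ext
      intro e
      have h2 := congrArg (fun d : DD F => d e) h1
      have h3 := congrArg (fun d : DD F => d e) (D_comm h l i)
      simp only [Derivation.commutator_apply, Derivation.coe_zero, Pi.zero_apply,
        Derivation.smul_apply, smul_eq_mul] at h2 h3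
      rw [Derivation.commutator_apply]
      simp only [Derivation.smul_apply, Derivation.sub_apply, Derivation.leibniz, smul_eq_mul,
        map_sub, D_phi y hy, Derivation.coe_zero, Pi.zero_apply]
      linear_combination h2 - (aeval y (monomial α (1 : F))) * h3)
    -- values on y
    have hyk : ∀ k, (θ ((monomial α (1 : F)) • pderiv i) -
        (aeval y (monomial α (1 : F))) • θ (pderiv i)) (y k) = C (c k) := by
      intro k
      rw [hc, sum_app]
      simp only [Derivation.smul_apply, hy]
      rw [Finset.sum_eq_single k]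
      · rw [if_pos rfl, MvPolynomial.smul_eq_C_mul, mul_one]
      · intro b _ hb
        rw [if_neg hb, smul_zero]
      · intro hi
        rw [hs k hi, zero_smul]
    have hrel : ∀ j k, ((α j : F) - (if j = i then 1 else 0)) * c k = -(if j = k then c k else 0)
        := by
      intro j k
      have h1 := congrArg θ (lie_xd_mon (F := F) j i α)
      rw [thlie h (fs_smul _ (fs_pd j)) (fs_smul _ (fs_pd i)),
        h.sm _ _ (fs_smul _ (fs_pd i))] at h1
      have h2 := congrArg (fun d : DD F => d (y k)) h1
      have h3 := congrArg (fun d : DD F => d (y k)) (hk_D h j i)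
      have h4 := hyk k
      have h5 := congrArg (θ (xd j)) h4
      have h6 := h_phi y hy2 j (monomial α (1 : F))
      rw [X_mul_pderiv_monomial, nsmul_eq_mul, map_mul, map_natCast] at h6
      have h7 : (θ ((monomial α (1 : F)) • pderiv i) -
        (aeval y (monomial α (1 : F))) • θ (pderiv i)) (θ (xd j) (y k)) =
          if j = k then C (c k) else 0 := by
        rw [hy2]
        split_ifs
        · exact h4
        · rw [map_zero]
      have h8 : ((α j : ℕ) : MvPolynomial ℕ F) = C (α j : F) := (map_natCast C (α j)).symm
      rw [h8] at h6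
      have h9 : ((θ (pderiv j)) (y k)) = if j = k then 1 else 0 := hy j k
      apply C_injective ℕ F
      simp only [Derivation.commutator_apply, Derivation.smul_apply,
        MvPolynomial.smul_eq_C_mul] at h2
      simp only [Derivation.commutator_apply] at h3
      simp only [Derivation.sub_apply, Derivation.smul_apply, smul_eq_mul] at h4 h7
      rw [derivation_C, Derivation.sub_apply, map_sub, Derivation.smul_apply, smul_eq_mul,
        Derivation.leibniz, smul_eq_mul, smul_eq_mul, h6] at h5
      rw [C_mul, C_neg]
      by_cases hji : j = i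
      · subst hji
        rw [if_pos rfl] at h3 h2 ⊢
        rw [Derivation.neg_apply] at h3
        by_cases hjk : j = k
        · rw [if_pos hjk] at h7 ⊢
          linear_combination -h4 * C ((α j : F) - 1) - h2 + h5 - h7
            + (aeval y (monomial α (1 : F))) * h3
            - (aeval y (monomial α (1 : F))) * (θ (pderiv j) (y k)) * (by
                rw [C_sub, C_1] : C ((α j : F) - 1) = C (α j : F) - (1 : MvPolynomial ℕ F))
        · rw [if_neg hjk] at h7 ⊢
          rw [C_0]
          linear_combination -h4 * C ((α j : F) - 1) - h2 + h5 - h7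
            + (aeval y (monomial α (1 : F))) * h3
            - (aeval y (monomial α (1 : F))) * (θ (pderiv j) (y k)) * (by
                rw [C_sub, C_1] : C ((α j : F) - 1) = C (α j : F) - (1 : MvPolynomial ℕ F))
      · rw [if_neg hji] at h3 h2 ⊢
        rw [Derivation.coe_zero, Pi.zero_apply] at h3
        rw [sub_zero] at h2 ⊢
        by_cases hjk : j = k
        · rw [if_pos hjk] at h7 ⊢
          linear_combination -h4 * C (α j : F) - h2 + h5 - h7
            + (aeval y (monomial α (1 : F))) * h3
        · rw [if_neg hjk] at h7 ⊢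
          rw [C_0]
          linear_combination -h4 * C (α j : F) - h2 + h5 - h7
            + (aeval y (monomial α (1 : F))) * h3
    have hcz : ∀ k, c k = 0 := by
      intro k
      have h1 := hrel k k
      rw [if_pos rfl] at h1
      by_cases hki : k = i
      · subst hki
        rw [if_pos rfl] at h1
        have h2 : (α k : F) * c k = 0 := by linear_combination h1
        rcases mul_eq_zero.mp h2 with h3 | h3
        · have h4 : α k = 0 := by exact_mod_cast h3
          have h5 : ∃ j, α j ≠ 0 := by
            by_contra h0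
            push Not at h0
            have : α = 0 := Finsupp.ext h0
            rw [this, map_zero] at hα
            omega
          obtain ⟨j, hj⟩ := h5
          have hjk : j ≠ k := by
            intro e
            rw [e] at hj
            exact hj h4
          have h6 := hrel j k
          rw [if_neg hjk, if_neg hjk, sub_zero, neg_zero] at h6
          rcases mul_eq_zero.mp h6 with h7 | h7
          · exact absurd (by exact_mod_cast h7) hj
          · exact h7
        · exact h3
      · rw [if_neg hki] at h1
        have h2 : ((α k : F) + 1) * c k = 0 := by linear_combination h1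
        rcases mul_eq_zero.mp h2 with h3 | h3
        · exact absurd h3 (Nat.cast_add_one_ne_zero (R := F) (α k))
        · exact h3
    have hz : (∑ i ∈ s, c i • θ (pderiv i)) = 0 := by
      apply Finset.sum_eq_zero
      intro b _
      rw [hcz b, zero_smul]
    rw [hz] at hc
    exact sub_eq_zero.mp hc

include h hy hy2 in
lemma theta_pol (p : MvPolynomial ℕ F) (i : ℕ) :
    θ (p • pderiv i) = (aeval y p) • θ (pderiv i) := by
  induction p using MvPolynomial.monomial_add_induction_on with
  | C a =>
    have : ((C a : MvPolynomial ℕ F) • (pderiv i : DD F)) = a • (pderiv i : DD F) := by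
      rw [← mul_one (C a), ← MvPolynomial.smul_eq_C_mul, smul_assoc, one_smul]
    rw [this, h.sm _ _ (fs_pd i), ← MvPolynomial.algebraMap_eq, AlgHom.commutes,
      MvPolynomial.algebraMap_eq, ← mul_one (C a), ← MvPolynomial.smul_eq_C_mul, smul_assoc,
      one_smul]
  | monomial_add α b p _ _ hp =>
    have e3 : ((monomial α b) • (pderiv i : DD F)) = b • ((monomial α (1 : F)) •
        (pderiv i : DD F)) := by
      rw [← mul_one (monomial α b), ← smul_assoc, MvPolynomial.smul_eq_C_mul, C_mul_monomial,
        mul_one, mul_one]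
    rw [add_smul, (h.al _ _ (fs_smul _ (fs_pd i)) (fs_smul _ (fs_pd i))).1, hp, e3,
      h.sm _ _ (fs_smul _ (fs_pd i)), theta_mon h y hy hy2 _ α rfl i, map_add, add_smul]
    congr 1
    rw [← smul_assoc, ← map_smul, MvPolynomial.smul_eq_C_mul, C_mul_monomial, mul_one]

include h hy hy2 in
lemma theta_app (b : DD F) (hb : fs b) (p : MvPolynomial ℕ F) :
    θ b (aeval y p) = aeval y (b p) := by
  have h1 := eq_sum b hb.toFinset (by
        intro i hi
        rw [Set.Finite.mem_toFinset] at hi
        by_contra h0
        exact hi h0)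
  have h2 : θ b = ∑ i ∈ hb.toFinset, (aeval y (b (X i))) • θ (pderiv i) := by
    conv_lhs => rw [h1]
    rw [thsum h _ _ (fun i _ => fs_smul _ (fs_pd i))]
    apply Finset.sum_congr rfl
    intro i _
    exact theta_pol h y hy hy2 _ i
  have h3 : b p = ∑ i ∈ hb.toFinset, b (X i) * pderiv i p := by
    conv_lhs => rw [h1]
    rw [sum_app]
    rfl
  rw [h2, sum_app, h3, map_sum]
  apply Finset.sum_congr rfl
  intro i _
  rw [Derivation.smul_apply, smul_eq_mul, map_mul, D_phi y hy]

omit [CharZero F] in
include hy in
lemma phi_inj_aux [CharZero F] (n : ℕ) : ∀ p : MvPolynomial ℕ F, kp n p → aeval y p = 0 → p = 0 := by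
  induction n with
  | zero => intro p hp _; exact hp
  | succ n ih =>
    intro p hp h0
    have h1 : ∀ j, pderiv j p = 0 := by
      intro j
      apply ih _ (hp j)
      rw [← D_phi y hy, h0, map_zero]
    have h2 := const_of p h1
    rw [h2, ← MvPolynomial.algebraMap_eq, AlgHom.commutes, MvPolynomial.algebraMap_eq] at h0
    rw [h2, h0]

include hy in
lemma phi_inj : Function.Injective (aeval y : MvPolynomial ℕ F →ₐ[F] MvPolynomial ℕ F) := by
  rw [injective_iff_map_eq_zero]
  intro p hp
  obtain ⟨n, hn⟩ := kp_ex p
  exact phi_inj_aux y hy n p hn hp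

include h hy hy2 in
lemma phi_sur : Function.Surjective (aeval y : MvPolynomial ℕ F →ₐ[F] MvPolynomial ℕ F) := by
  intro f
  obtain ⟨b, hb, hbf⟩ := h.sur (f • θ (pderiv 0)) (fs_smul _ (h.fs _ (fs_pd 0)))
  refine ⟨b (X 0), ?_⟩
  rw [← theta_app h y hy hy2 b hb, hbf, aeval_X, Derivation.smul_apply, hy, if_pos rfl,
    smul_eq_mul, mul_one]

end th

end Run7.h874.WA

namespace Run7.h874.WA

variable {F : Type} [Field F] [CharZero F]

lemma vars_iff (n : ℕ) (p : MvPolynomial ℕ F) : n ∈ p.vars → pderiv n p ≠ 0 := by
  intro hn h0
  rw [mem_vars] at hn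
  obtain ⟨m, hm, hnm⟩ := hn
  have h1 := congrArg (coeff (m - Finsupp.single n 1)) h0
  rw [coeff_pderiv, coeff_zero] at h1
  have h3 : m n ≠ 0 := by rwa [Finsupp.mem_support_iff] at hnm
  have h2 : m - Finsupp.single n 1 + Finsupp.single n 1 = m := by
    apply tsub_add_cancel_of_le
    rw [Finsupp.single_le_iff]
    omega
  rw [h2] at h1
  rcases mul_eq_zero.mp h1 with h4 | h4
  · exact (mem_support_iff.mp hm) h4
  · exact Nat.cast_add_one_ne_zero (R := F) _ h4

theorem final (θ : DD F → DD F)
    (h1 : ∀ d : DD F, fs d → fs (θ d))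
    (h2 : ∀ e : DD F, fs e → ∃ d : DD F, fs d ∧ θ d = e)
    (h3 : ∀ d e : DD F, fs d → fs e → θ d = θ e → d = e)
    (h4 : ∀ d e : DD F, fs d → fs e → θ (d + e) = θ d + θ e ∧ θ ⁅d, e⁆ = ⁅θ d, θ e⁆)
    (h5 : ∀ (c : F) (d : DD F), fs d → θ (c • d) = c • θ d) :
    ∃ φ : MvPolynomial ℕ F ≃ₐ[F] MvPolynomial ℕ F,
        (∀ n : ℕ, Set.Finite {i : ℕ | n ∈ (φ (MvPolynomial.X i)).vars} ∧
                  Set.Finite {i : ℕ | n ∈ (φ.symm (MvPolynomial.X i)).vars}) ∧
        ∀ d : DD F, fs d → ∀ f : MvPolynomial ℕ F, θ d f = φ (d (φ.symm f)) := by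
  have h : Th θ := ⟨h1, h2, h3, h4, h5⟩
  obtain ⟨y, hy, hy2⟩ := exists_y h
  let φ : MvPolynomial ℕ F ≃ₐ[F] MvPolynomial ℕ F :=
    AlgEquiv.ofBijective (aeval y) ⟨phi_inj y hy, phi_sur h y hy hy2⟩
  have hφ : ∀ p, φ p = aeval y p := fun p => rfl
  have key : ∀ d : DD F, fs d → ∀ f : MvPolynomial ℕ F, θ d f = φ (d (φ.symm f)) := by
    intro d hd f
    have e1 : f = aeval y (φ.symm f) := by
      rw [← hφ, AlgEquiv.apply_symm_apply]
    conv_lhs => rw [e1]
    rw [theta_app h y hy hy2 d hd, hφ]
  refine ⟨φ, ?_, key⟩
  intro n
  constructor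
  · obtain ⟨d, hd, hdn⟩ := h.sur (pderiv n) (fs_pd n)
    refine Set.Finite.subset hd ?_
    intro i hi
    have e2 := key d hd (φ (X i))
    rw [hdn, AlgEquiv.symm_apply_apply] at e2
    intro h0
    rw [h0, map_zero] at e2
    exact vars_iff n _ hi e2
  · refine Set.Finite.subset (h.fs _ (fs_pd n)) ?_
    intro i hi h0
    have e2 := key (pderiv n) (fs_pd n) (X i)
    rw [h0] at e2
    exact vars_iff n _ hi ((map_eq_zero_iff φ φ.injective).mp e2.symm)

end Run7.h874.WA
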